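import Mathlib

/-!
# Chow rings with supports; fibrations in curves of genus one and in K3 surfaces

Formal data: the Chow ring with rational coefficients of a smooth projective variety, together with
the classes of the cycles supported on closed subsets, the classes of the closed points, the degree
and the Chern classes of the tangent bundle; pull-back under morphisms. All axioms are standard
facts on Chow groups.
-/

open TopologicalSpace

namespace Pool.Agent.LibVC22

universe u

/-- The Chow ring (with rational coefficients) of a smooth projective variety. -/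
structure ChowData where
  /-- the closed points, with the Zariski topology -/
  Pt : Type u
  [top : TopologicalSpace Pt]
  [noeth : NoetherianSpace Pt]
  /-- the dimension -/
  dim : ℕ
  /-- the Chow ring -/
  CH : Type u
  [ring : CommRing CH]
  [alg : Algebra ℚ CH]
  /-- the cycles of codimension `i` -/
  gr : ℕ → Submodule ℚ CH
  [graded : GradedAlgebra gr]
  /-- there are no cycles of codimension `> dim` -/
  gr_eq_bot : ∀ i, dim < i → gr i = ⊥
  /-- the classes of the cycles supported on the closed subset `Z`; they form an ideal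
  (projection formula) -/
  supp : Set Pt → Ideal CH
  supp_homogeneous : ∀ Z, IsClosed Z → (supp Z).IsHomogeneous gr
  /-- the class of a point -/
  pt : Pt → CH
  pt_mem : ∀ x, pt x ∈ gr dim
  /-- zero-cycles supported on `Z` are combinations of the points of `Z` -/
  supp_top : ∀ Z, IsClosed Z → ∀ a ∈ supp Z, a ∈ gr dim →
    a ∈ Submodule.span ℚ (pt '' Z)
  /-- the degree of zero-cycles -/
  deg : CH →ₗ[ℚ] ℚ
  deg_pt : ∀ x, deg (pt x) = 1
  /-- if the points of a non-empty open part of an irreducible closed subset are all rationally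
  equivalent then so are all points of this subset -/
  const : ∀ Z U : Set Pt, IsClosed Z → IsIrreducible Z → IsOpen U → (Z ∩ U).Nonempty →
    ∀ o, (∀ x ∈ Z ∩ U, pt x = o) → ∀ x ∈ Z, pt x = o
  /-- the Chern classes of the tangent bundle -/
  chern : ℕ → CH
  chern_mem : ∀ i, chern i ∈ gr i
  chern_zero : chern 0 = 1

attribute [instance] ChowData.top ChowData.noeth ChowData.ring ChowData.alg ChowData.graded

/-- A morphism of smooth projective varieties. -/
structure Mor (X B : ChowData.{u}) where
  /-- the map on the closed points -/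
  f : X.Pt → B.Pt
  continuous : Continuous f
  /-- the pull-back -/
  pull : B.CH →ₐ[ℚ] X.CH
  pull_mem : ∀ i, ∀ a ∈ B.gr i, pull a ∈ X.gr i

variable {X B : ChowData.{u}}

/-- `W` is the closure of its part outside of the closed subset `π⁻¹ Δ`: no component of `W` lies
over `Δ`. -/
def Horizontal (π : Mor X B) (Δ : Set B.Pt) (W : Set X.Pt) : Prop :=
  IsClosed W ∧ W ⊆ closure (W ∩ (π.f ⁻¹' Δ)ᶜ)

/-- The fibration `π : X → B` in curves of genus one, whose degenerate fibres are over the closed
subset `Δ` of `B`. -/
structure GenusOneFibration (π : Mor X B) (Δ : Set B.Pt) : Prop where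
  dim_eq : X.dim = B.dim + 1
  /-- all points of the base are rationally equivalent -/
  base : ∀ b b' : B.Pt, B.pt b = B.pt b'
  closed : IsClosed Δ
  nonempty : Δ.Nonempty
  /-- outside of `Δ` the fibration is smooth, and its relative tangent bundle is the pull-back of a
  line bundle `M` on the base; so `c(T_X) = π^*((1 + c_1(M)) c(T_B))` there -/
  tangent : ∀ i, ∃ β : B.CH, X.chern i - π.pull β ∈ X.supp (π.f ⁻¹' Δ)
  /-- there is a divisor of non-zero degree on the fibres -/
  polar : ∃ H ∈ X.gr 1, ∀ b, X.deg (H * π.pull (B.pt b)) ≠ 0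
  /-- The torsion multisection of a divisor `D` of degree `d ≠ 0` on the fibres: let `T` be the
  closure of the set of the points `t` of the smooth fibres `X_b` such that the divisors `d t` and
  `D|X_b` on the curve `X_b` are linearly equivalent. It is mapped onto `B`, and the divisor `D` is,
  up to a non-zero factor, equal to `T` up to vertical divisors; these are supported over `Δ` or
  pull-backs of divisors on `B`. -/
  torsion : ∀ D ∈ X.gr 1, ∀ d : ℚ, d ≠ 0 → (∀ b, X.deg (D * π.pull (B.pt b)) = d) →
    ∃ T : Set X.Pt, Horizontal π Δ T ∧ (∀ b, ∃ t ∈ T, π.f t = b) ∧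
      (∃ L ∈ B.gr 1, D - π.pull L ∈ X.supp T ⊔ X.supp (π.f ⁻¹' Δ)) ∧
      ∀ t ∈ T, π.f t ∉ Δ → d • X.pt t = D * π.pull (B.pt (π.f t))
  /-- The degenerate fibres in general position are connected and consist of rational curves: on a
  dense open part of the inverse image of `Δ`, all points of the fibre of `x` are rationally
  equivalent to `x`. -/
  degenerate : ∃ U : Set X.Pt, IsOpen U ∧ π.f ⁻¹' Δ ⊆ closure (π.f ⁻¹' Δ ∩ U) ∧
    ∀ x, π.f x ∈ Δ → x ∈ U → ∀ y : X.Pt, π.f y = π.f x → X.pt y = X.pt x

/-- `W` is horizontal, and all points `x` of `W` in smooth fibres `X_b` satisfy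
`24 x = c_2(X_b)` in the Chow group of `X`: this is so if `W` is swept out by rational curves in the
K3 surfaces `X_b` (Beauville-Voisin). -/
def Beacon (π : Mor X B) (Δ : Set B.Pt) (W : Set X.Pt) : Prop :=
  Horizontal π Δ W ∧ ∀ x ∈ W, π.f x ∉ Δ →
    (24 : ℚ) • X.pt x = X.chern 2 * π.pull (B.pt (π.f x))

/-- The fibration `π : X → B` in K3 surfaces; the fibres outside of `Δ` are smooth, and the closed
subset `Z` contains the critical points of `π` and the reducible fibres. -/
structure K3Fibration (π : Mor X B) (Δ : Set B.Pt) (Z : Set X.Pt) : Prop where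
  dim_eq : X.dim = B.dim + 2
  /-- all points of the base are rationally equivalent -/
  base : ∀ b b' : B.Pt, B.pt b = B.pt b'
  closed : IsClosed Δ
  /-- K3 surfaces have Euler number `24` -/
  euler : ∀ b, X.deg (X.chern 2 * π.pull (B.pt b)) = 24
  /-- divisors are, up to pull-backs of divisors on `B` and up to reducible fibres, supported on a
  closed subset swept out by rational curves in the fibres (Bogomolov-Mumford) -/
  divisors : ∀ D ∈ X.gr 1, ∃ L ∈ B.gr 1, ∃ R : Set X.Pt, Beacon π Δ R ∧
    D - π.pull L ∈ X.supp R ⊔ X.supp Z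
  /-- outside of `Z` the relative tangent bundle has Chern classes `ν`, `γ`, and `γ` is, up to a
  pull-back, supported on such a closed subset (Beauville-Voisin) -/
  tangent : ∃ ν ∈ X.gr 1, ∃ γ ∈ X.gr 2,
    (∃ L ∈ B.gr 2, ∃ R : Set X.Pt, Beacon π Δ R ∧ γ - π.pull L ∈ X.supp R ⊔ X.supp Z) ∧
    ∀ i, X.chern (i + 2) - (π.pull (B.chern (i + 2)) + ν * π.pull (B.chern (i + 1)) +
      γ * π.pull (B.chern i)) ∈ X.supp Z
  /-- the points of a dense open part of `Z` are rationally equivalent to a point of such a closed
  subset -/
  special : IsClosed Z ∧ ∃ R : Set X.Pt, Beacon π Δ R ∧ ∃ U : Set X.Pt, IsOpen U ∧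
    Z ⊆ closure (Z ∩ U) ∧ ∀ x ∈ Z ∩ U, ∃ y ∈ R, X.pt x = X.pt y

end Pool.Agent.LibVC22
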