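import Mathlib
import Pool.Agent.LibVC22.Defs

open TopologicalSpace

namespace Pool.Agent.LibVC22

universe u

variable {X B : ChowData.{u}}

/-- closed subsets all of whose points have the class `o` -/
def IsConst (X : ChowData.{u}) (o : X.CH) (W : Set X.Pt) : Prop :=
  IsClosed W ∧ ∀ x ∈ W, X.pt x = o

/-- the classes supported on such subsets -/
def Io (X : ChowData.{u}) (o : X.CH) : Ideal X.CH :=
  ⨆ W : {W : Set X.Pt // IsConst X o W}, X.supp W.1

theorem le_Io {o : X.CH} {W : Set X.Pt} (hW : IsConst X o W) : X.supp W ≤ Io X o :=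
  le_iSup (fun W : {W : Set X.Pt // IsConst X o W} => X.supp W.1) ⟨W, hW⟩

theorem Io_homogeneous (o : X.CH) : (Io X o).IsHomogeneous X.gr :=
  Ideal.IsHomogeneous.iSup fun W => X.supp_homogeneous W.1 W.2.1

theorem Io_top {o : X.CH} {a : X.CH} (ha : a ∈ Io X o) (h : a ∈ X.gr X.dim) :
    a ∈ Submodule.span ℚ {o} := by
  have key : ∀ a ∈ Io X o, GradedRing.proj X.gr X.dim a ∈ Submodule.span ℚ {o} := by
    intro a ha
    refine Submodule.iSup_induction (fun W : {W : Set X.Pt // IsConst X o W} => X.supp W.1)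
      (motive := fun a => GradedRing.proj X.gr X.dim a ∈ Submodule.span ℚ {o}) ha ?_ ?_ ?_
    · rintro ⟨W, hW⟩ x hx
      have h1 : GradedRing.proj X.gr X.dim x ∈ X.supp W := X.supp_homogeneous W hW.1 X.dim hx
      have h2 : GradedRing.proj X.gr X.dim x ∈ X.gr X.dim := SetLike.coe_mem _
      have h3 := X.supp_top W hW.1 _ h1 h2
      refine Submodule.span_mono ?_ h3
      rintro _ ⟨y, hy, rfl⟩
      simpa using hW.2 y hy
    · simp
    · intro x y hx hy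
      rw [map_add]
      exact Submodule.add_mem _ hx hy
  have h1 := key a ha
  have h2 : GradedRing.proj X.gr X.dim a = a := DirectSum.decompose_of_mem_same X.gr h
  rwa [h2] at h1

theorem const_dense (W U : Set X.Pt) (hW : IsClosed W) (hU : IsOpen U)
    (hd : W ⊆ closure (W ∩ U)) (o : X.CH) (h : ∀ x ∈ W ∩ U, X.pt x = o) :
    ∀ x ∈ W, X.pt x = o := by
  obtain ⟨S, hfin, hirr, hS⟩ :=
    NoetherianSpace.exists_finite_set_closeds_irreducible (⟨W, hW⟩ : Closeds X.Pt)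
  have hSW : ∀ t ∈ S, (t : Set X.Pt) ⊆ W := by
    intro t ht
    have : t ≤ (⟨W, hW⟩ : Closeds X.Pt) := hS ▸ le_sSup ht
    exact this
  have hWS : ∀ x ∈ W, ∃ t ∈ S, x ∈ t := by
    intro x hx
    have h1 : x ∈ (⟨W, hW⟩ : Closeds X.Pt) := hx
    rw [hS] at h1
    have h2 : IsClosed (⋃ t ∈ S, (t : Set X.Pt)) :=
      hfin.isClosed_biUnion fun t _ => t.isClosed
    have h3 : sSup S ≤ (⟨⋃ t ∈ S, (t : Set X.Pt), h2⟩ : Closeds X.Pt) := by
      refine sSup_le fun t ht => ?_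
      intro y hy
      exact Set.mem_biUnion ht hy
    have h4 := h3 h1
    simpa using h4
  intro x hx
  have hcl : IsClosed (⋃ t ∈ {t ∈ S | ((t : Set X.Pt) ∩ U).Nonempty}, (t : Set X.Pt)) :=
    (hfin.subset (Set.sep_subset _ _)).isClosed_biUnion fun t _ => t.isClosed
  have hsub : W ∩ U ⊆ ⋃ t ∈ {t ∈ S | ((t : Set X.Pt) ∩ U).Nonempty}, (t : Set X.Pt) := by
    rintro y ⟨hyW, hyU⟩
    obtain ⟨t, ht, hyt⟩ := hWS y hyW
    exact Set.mem_biUnion (show t ∈ {t ∈ S | ((t : Set X.Pt) ∩ U).Nonempty} from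
      ⟨ht, y, hyt, hyU⟩) hyt
  have hx2 := closure_minimal hsub hcl (hd hx)
  obtain ⟨t, ht, hxt⟩ := Set.mem_iUnion₂.1 hx2
  exact X.const t U t.isClosed (hirr t ht.1) hU ht.2 o
    (fun y hy => h y ⟨hSW t ht.1 hy.1, hy.2⟩) x hxt

variable {π : Mor X B} {Δ : Set B.Pt}

/-- all points over `Δ` are rationally equivalent -/
theorem exists_base_class (h : GenusOneFibration π Δ) :
    ∃ o : X.CH, (∀ x, π.f x ∈ Δ → X.pt x = o) ∧
      ∀ D ∈ X.gr 1, (∃ b, X.deg (D * π.pull (B.pt b)) ≠ 0) →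
        ∃ L ∈ B.gr 1, D - π.pull L ∈ Io X o := by
  obtain ⟨b0, hb0⟩ := h.nonempty
  have hcD : IsClosed (π.f ⁻¹' Δ) := h.closed.preimage π.continuous
  have hoD : IsOpen (π.f ⁻¹' Δ)ᶜ := hcD.isOpen_compl
  -- the torsion multisections are constant cycle subvarieties
  have key : ∀ D ∈ X.gr 1, (∃ b, X.deg (D * π.pull (B.pt b)) ≠ 0) →
      ∃ T : Set X.Pt, IsClosed T ∧ (∀ b, ∃ t ∈ T, π.f t = b) ∧
        (∃ L ∈ B.gr 1, D - π.pull L ∈ X.supp T ⊔ X.supp (π.f ⁻¹' Δ)) ∧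
        ∃ o, ∀ t ∈ T, X.pt t = o := by
    rintro D hD ⟨b, hb⟩
    obtain ⟨T, ⟨hT, hTd⟩, hTs, hL, hTp⟩ := h.torsion D hD _ hb
      (fun b' => by rw [h.base b' b])
    refine ⟨T, hT, hTs, hL, (X.deg (D * π.pull (B.pt b)))⁻¹ • (D * π.pull (B.pt b)), ?_⟩
    refine const_dense T _ hT hoD hTd _ ?_
    rintro t ⟨htT, htD⟩
    have h1 := hTp t htT htD
    rw [h.base (π.f t) b] at h1
    calc X.pt t = (X.deg (D * π.pull (B.pt b)))⁻¹ • (X.deg (D * π.pull (B.pt b)) • X.pt t) := by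
          rw [smul_smul, inv_mul_cancel₀ hb, one_smul]
      _ = _ := by rw [h1]
  -- the points over `Δ`
  obtain ⟨H, hH, hHd⟩ := h.polar
  obtain ⟨T, hT, hTs, -, o, hTo⟩ := key H hH ⟨b0, hHd b0⟩
  obtain ⟨U, hU, hUd, hUp⟩ := h.degenerate
  have hΔ : ∀ x, π.f x ∈ Δ → X.pt x = o := by
    refine const_dense (π.f ⁻¹' Δ) U hcD hU hUd o ?_
    rintro x ⟨hx1, hx2⟩
    obtain ⟨t, ht, htx⟩ := hTs (π.f x)
    rw [← hUp x hx1 hx2 t htx, hTo t ht]
  refine ⟨o, hΔ, fun D hD hDb => ?_⟩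
  obtain ⟨T', hT', hTs', ⟨L, hL, hDL⟩, o', hTo'⟩ := key D hD hDb
  have hoo : o' = o := by
    obtain ⟨t, ht, htb⟩ := hTs' b0
    rw [← hTo' t ht]
    exact hΔ t (by rw [htb]; exact hb0)
  subst hoo
  refine ⟨L, hL, ?_⟩
  exact (sup_le (le_Io ⟨hT', hTo'⟩) (le_Io ⟨hcD, fun x hx => hΔ x hx⟩)) hDL

/-- the algebraic part -/
theorem top_degree (o : X.CH) (hd : B.dim < X.dim) (hdeg : X.deg o = 1)
    (hall : ∀ D ∈ X.gr 1, ∃ L : B.CH, D - π.pull L ∈ Io X o)
    (hch : ∀ i, ∃ L : B.CH, X.chern i - π.pull L ∈ Io X o) :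
    ∀ z ∈ Algebra.adjoin ℚ ((X.gr 1 : Set X.CH) ∪ Set.range X.chern),
      z ∈ X.gr X.dim → z = X.deg z • o := by
  -- all classes
  have hR : ∀ z ∈ Algebra.adjoin ℚ ((X.gr 1 : Set X.CH) ∪ Set.range X.chern),
      ∃ L : B.CH, z - π.pull L ∈ Io X o := by
    intro z hz
    induction hz using Algebra.adjoin_induction with
    | mem a ha =>
      rcases ha with ha | ⟨i, rfl⟩
      · exact hall a ha
      · exact hch i
    | algebraMap r =>
      exact ⟨algebraMap ℚ B.CH r, by rw [AlgHom.commutes, sub_self]; exact Ideal.zero_mem _⟩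
    | add a b _ _ ha hb =>
      obtain ⟨L1, h1⟩ := ha
      obtain ⟨L2, h2⟩ := hb
      refine ⟨L1 + L2, ?_⟩
      have h4 : a + b - π.pull (L1 + L2) = (a - π.pull L1) + (b - π.pull L2) := by
        rw [map_add]; ring
      rw [h4]
      exact Ideal.add_mem _ h1 h2
    | mul a b _ _ ha hb =>
      obtain ⟨L1, h1⟩ := ha
      obtain ⟨L2, h2⟩ := hb
      refine ⟨L1 * L2, ?_⟩
      have h4 : a * b - π.pull (L1 * L2) = (a - π.pull L1) * b + π.pull L1 * (b - π.pull L2) := by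
        rw [map_mul]; ring
      rw [h4]
      exact Ideal.add_mem _ (Ideal.mul_mem_right _ _ h1) (Ideal.mul_mem_left _ _ h2)
  intro z hz hzd
  obtain ⟨L, hL⟩ := hR z hz
  -- the component of degree `dim X`
  have h1 : GradedRing.proj X.gr X.dim (z - π.pull L) ∈ Io X o := Io_homogeneous o X.dim hL
  have h2 : GradedRing.proj X.gr X.dim (π.pull L) = 0 := by
    have h5 : ∀ L : B.CH, GradedRing.proj X.gr X.dim (π.pull L) = 0 := by
      intro L
      classical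
      induction L using DirectSum.Decomposition.inductionOn B.gr with
      | zero => simp
      | @homogeneous i a =>
        have hi := π.pull_mem i a.1 a.2
        by_cases hd' : i = X.dim
        · have h6 : B.gr i = ⊥ := B.gr_eq_bot i (by rw [hd']; exact hd)
          rw [(Submodule.mem_bot ℚ).1 (h6.le a.2), map_zero, map_zero]
        · exact DirectSum.decompose_of_mem_ne X.gr hi hd'
      | add a b ha hb => rw [map_add, map_add, ha, hb, add_zero]
    exact h5 L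
  have h3 : GradedRing.proj X.gr X.dim z = z := DirectSum.decompose_of_mem_same X.gr hzd
  rw [map_sub, h2, h3, sub_zero] at h1
  obtain ⟨c, hc⟩ := Submodule.mem_span_singleton.1 (Io_top h1 hzd)
  have h7 : X.deg z = c := by
    rw [← hc, map_smul, hdeg, smul_eq_mul, mul_one]
  rw [h7, hc]

theorem genus_one (h : GenusOneFibration π Δ) :
    ∀ x, π.f x ∈ Δ → ∀ z ∈ Algebra.adjoin ℚ ((X.gr 1 : Set X.CH) ∪ Set.range X.chern),
      z ∈ X.gr X.dim → z = X.deg z • X.pt x := by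
  obtain ⟨o, hΔ, hdiv⟩ := exists_base_class h
  intro x hx
  have hcD : IsClosed (π.f ⁻¹' Δ) := h.closed.preimage π.continuous
  have hox : X.pt x = o := hΔ x hx
  rw [hox]
  refine top_degree (π := π) o (by rw [h.dim_eq]; exact Nat.lt_succ_self _)
    (by rw [← hox, X.deg_pt]) ?_ ?_
  · intro D hD
    obtain ⟨b, hb⟩ := h.nonempty
    by_cases hDb : X.deg (D * π.pull (B.pt b)) = 0
    · obtain ⟨H, hH, hHd⟩ := h.polar
      obtain ⟨L1, -, h1⟩ := hdiv H hH ⟨b, hHd b⟩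
      obtain ⟨L2, -, h2⟩ := hdiv (D + H) (Submodule.add_mem _ hD hH)
        ⟨b, by rw [add_mul, map_add, hDb, zero_add]; exact hHd b⟩
      refine ⟨L2 - L1, ?_⟩
      have h3 := Ideal.sub_mem _ h2 h1
      have h4 : D - π.pull (L2 - L1) = D + H - π.pull L2 - (H - π.pull L1) := by
        rw [map_sub]; ring
      rwa [h4]
    · obtain ⟨L, -, h1⟩ := hdiv D hD ⟨b, hDb⟩
      exact ⟨L, h1⟩
  · intro i
    obtain ⟨β, hβ⟩ := h.tangent i
    exact ⟨β, le_Io ⟨hcD, fun x hx => hΔ x hx⟩ hβ⟩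

theorem k3 {Z : Set X.Pt} (h : K3Fibration π Δ Z) (b : B.Pt) :
    ∀ z ∈ Algebra.adjoin ℚ ((X.gr 1 : Set X.CH) ∪ Set.range X.chern),
      z ∈ X.gr X.dim → z = X.deg z • ((24 : ℚ)⁻¹ • (X.chern 2 * π.pull (B.pt b))) := by
  have hb : X.deg (X.chern 2 * π.pull (B.pt b)) = 24 := h.euler b
  set o : X.CH := (24 : ℚ)⁻¹ • (X.chern 2 * π.pull (B.pt b)) with ho
  have hcD : IsClosed (π.f ⁻¹' Δ) := h.closed.preimage π.continuous
  have hbea : ∀ R : Set X.Pt, Beacon π Δ R → ∀ x ∈ R, X.pt x = o := by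
    rintro R ⟨⟨hR, hRd⟩, hRp⟩
    refine const_dense R _ hR hcD.isOpen_compl hRd o ?_
    rintro x ⟨hxR, hxD⟩
    have h1 := hRp x hxR hxD
    rw [h.base (π.f x) b] at h1
    rw [ho, ← h1, smul_smul, inv_mul_cancel₀ (by norm_num), one_smul]
  have hZ : ∀ x ∈ Z, X.pt x = o := by
    obtain ⟨hZc, R, hR, U, hU, hUd, hUp⟩ := h.special
    refine const_dense Z U hZc hU hUd o ?_
    intro x hx
    obtain ⟨y, hy, hxy⟩ := hUp x hx
    rw [hxy, hbea R hR y hy]
  have hZI : X.supp Z ≤ Io X o := le_Io ⟨h.special.1, hZ⟩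
  have hRI : ∀ R : Set X.Pt, Beacon π Δ R → X.supp R ⊔ X.supp Z ≤ Io X o := fun R hR =>
    sup_le (le_Io ⟨hR.1.1, hbea R hR⟩) hZI
  have hdiv : ∀ D ∈ X.gr 1, ∃ L : B.CH, D - π.pull L ∈ Io X o := by
    intro D hD
    obtain ⟨L, -, R, hR, hDL⟩ := h.divisors D hD
    exact ⟨L, hRI R hR hDL⟩
  refine top_degree (π := π) o (by rw [h.dim_eq]; omega)
    (by rw [ho, map_smul, hb, smul_eq_mul, inv_mul_cancel₀ (by norm_num)]) hdiv ?_
  obtain ⟨ν, hν, γ, hγ, ⟨L2, -, R, hR, hL2⟩, hc⟩ := h.tangent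
  obtain ⟨L1, hL1⟩ := hdiv ν hν
  intro i
  match i with
  | 0 => exact ⟨1, by rw [X.chern_zero, map_one, sub_self]; exact Ideal.zero_mem _⟩
  | 1 => exact hdiv _ (X.chern_mem 1)
  | i + 2 =>
    refine ⟨B.chern (i + 2) + L1 * B.chern (i + 1) + L2 * B.chern i, ?_⟩
    have h5 : X.chern (i + 2) -
        π.pull (B.chern (i + 2) + L1 * B.chern (i + 1) + L2 * B.chern i) =
        (X.chern (i + 2) - (π.pull (B.chern (i + 2)) + ν * π.pull (B.chern (i + 1)) +
          γ * π.pull (B.chern i))) + (ν - π.pull L1) * π.pull (B.chern (i + 1)) +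
        (γ - π.pull L2) * π.pull (B.chern i) := by
      simp only [map_add, map_mul]; ring
    rw [h5]
    exact Ideal.add_mem _ (Ideal.add_mem _ (hZI (hc i)) (Ideal.mul_mem_right _ _ hL1))
      (Ideal.mul_mem_right _ _ (hRI R hR hL2))

end Pool.Agent.LibVC22
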